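import Pool.Agent.Lib.MP_67e184_co.Transfer

/-!
# Complete nets with an abelian point-transitive automorphism group have classical parameters

`IsCompleteNet s r μ cls` and `IsAut cls g` are defined in `Pool.Agent.Lib.MP_67e184_co.Transfer`.
-/

open Pool.Agent.Lib.MP67e184

namespace Pool.Agent.Results.MP_67e184_co.AbelianTransitive

/-- Let `s ≥ 2`, `μ ≥ 1` and let a complete `(s, μ)`-net be given. If an abelian group of
automorphisms is transitive on the points then `s` is a prime power and `μ = s ^ (d - 2)` for some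
`d ≥ 2`. -/
theorem result {P : Type*} [Fintype P] [DecidableEq P] {s r μ : ℕ} (hs : 2 ≤ s) (hμ : 1 ≤ μ)
    (cls : Fin r → Finset (Finset P)) (h : IsCompleteNet s r μ cls)
    (G : Subgroup (Equiv.Perm P)) (haut : ∀ g ∈ G, IsAut cls g)
    (hab : ∀ g ∈ G, ∀ k ∈ G, g * k = k * g) (htr : ∀ x y : P, ∃ g ∈ G, g x = y) :
    IsPrimePow s ∧ ∃ d, 2 ≤ d ∧ μ = s ^ (d - 2) :=
  classical_of_abelian hs hμ cls h G haut hab htr

end Pool.Agent.Results.MP_67e184_co.AbelianTransitive
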