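import Pool.Agent.Lib.MP_67e184_co.ClassTransB

/-!
# Complete nets with a group of automorphisms that is transitive on the parallel classes

`IsCompleteNet s r μ cls` and `IsAut cls g` are defined in `Pool.Agent.Lib.MP_67e184_co.Transfer`.
-/

open Pool.Agent.Lib.MP67e184

namespace Pool.Agent.Results.MP_67e184_co.ClassTransitive

/-- Let `s ≥ 2`, `μ ≥ 1`, let `G` be a group of automorphisms of a complete `(s, μ)`-net that is
transitive on the parallel classes, and let `N` be a nontrivial soluble normal subgroup of `G`.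
Then `G` fixes a point, or `N` is transitive on the points, `s` is a prime power and
`μ = s ^ (d - 2)` for some `d ≥ 2`. -/
theorem result {P : Type*} [Fintype P] [DecidableEq P] {s r μ : ℕ} (hs : 2 ≤ s) (hμ : 1 ≤ μ)
    (cls : Fin r → Finset (Finset P)) (h : IsCompleteNet s r μ cls)
    (G : Subgroup (Equiv.Perm P)) (haut : ∀ g ∈ G, IsAut cls g)
    (hcl : ∀ c d : Fin r, ∃ g ∈ G, ∀ B ∈ cls c, B.image g ∈ cls d)
    (N : Subgroup G) (hN : N.Normal) (hsol : Group.IsSolvable N) (hne : N ≠ ⊥) :
    (∃ x : P, ∀ g ∈ G, g x = x) ∨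
      ((∀ x y : P, ∃ a ∈ N, (a : Equiv.Perm P) x = y) ∧ IsPrimePow s ∧
        ∃ d, 2 ≤ d ∧ μ = s ^ (d - 2)) :=
  class_transitive_main h hs hμ G haut hcl N hN hsol hne

end Pool.Agent.Results.MP_67e184_co.ClassTransitive
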