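import Pool.Agent.Lib.MP_67e184_co.QuotNet

/-!
# Complete nets with a full homothety group and a further dilatation

`IsCompleteNet s r μ cls` is defined in `Pool.Agent.Lib.MP_67e184_co.Transfer` and
`IsDilatation cls g` in `Pool.Agent.Lib.MP_67e184_co.Dil`.
-/

open Pool.Agent.Lib.MP67e184

universe u

namespace Pool.Agent.Results.MP_67e184_co.Homotheties

/-- Let `s ≥ 3`, `μ ≥ 1`, let a complete `(s, μ)`-net be given, let `D` be a group of
dilatations of it and let `x` be a point with `|D_x| = s - 1` that `D` moves. Then `s` is a prime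
power, the orbit of `x` has `s ^ j` points, `j ≥ 1`, and either `μ = s ^ (d - 2)` for some
`d ≥ 2`, or `μ = s ^ j * μ'` where a complete `(s, μ')`-net exists and `μ'` is not of the form
`s ^ (d - 2)`. If the orbit of `x` is not contained in a block, then `D` is transitive on the
points and `μ = s ^ (d - 2)` for some `d ≥ 2`. -/
theorem result {P : Type u} [Fintype P] [DecidableEq P] {s r μ : ℕ} (hs : 3 ≤ s) (hμ : 1 ≤ μ)
    (cls : Fin r → Finset (Finset P)) (h : IsCompleteNet s r μ cls)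
    (D : Subgroup (Equiv.Perm P)) (hD : ∀ g ∈ D, IsDilatation cls g)
    (x : P) (hx : Nat.card (MulAction.stabilizer D x) = s - 1) (hmove : ∃ g ∈ D, g x ≠ x) :
    IsPrimePow s ∧
    (∃ j, 1 ≤ j ∧ Nat.card (MulAction.orbit D x) = s ^ j ∧
      ((∃ d, 2 ≤ d ∧ μ = s ^ (d - 2)) ∨
        ∃ μ', μ = s ^ j * μ' ∧ 1 ≤ μ' ∧ (¬ ∃ d, 2 ≤ d ∧ μ' = s ^ (d - 2)) ∧
          ∃ (P' : Type u) (_ : Fintype P') (_ : DecidableEq P') (r' : ℕ)
            (cls' : Fin r' → Finset (Finset P')), IsCompleteNet s r' μ' cls')) ∧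
    ((∀ c, ∀ B ∈ cls c, ∃ g ∈ D, g x ∉ B) →
      (∀ y z : P, ∃ g ∈ D, g y = z) ∧ ∃ d, 2 ≤ d ∧ μ = s ^ (d - 2)) := by
  obtain ⟨h1, ⟨j, hj, hcard⟩, h2, h3⟩ := dilatation_theorem h hs hμ D hD x hx hmove
  refine ⟨h1, ⟨j, hj, hcard, ?_⟩, h3⟩
  rcases h2 with h2 | ⟨μ', e1, e2, e3, e4⟩
  · exact Or.inl h2
  · right
    rw [hcard] at e1
    exact ⟨μ', e1, e2, e3, e4⟩

end Pool.Agent.Results.MP_67e184_co.Homotheties
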