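import Pool.Agent.Lib.MP_67e184_co.TransGroup

/-!
# Complete nets with a point-regular (or nilpotent point-transitive) automorphism group

`IsCompleteNet s r μ cls` and `IsAut cls g` are defined in `Pool.Agent.Lib.MP_67e184_co.Transfer`.
-/

open Pool.Agent.Lib.MP67e184

namespace Pool.Agent.Results.MP_67e184_co.PointRegular

/-- Let `s ≥ 2`, `μ ≥ 1` and let `G` be a group of automorphisms of a complete `(s, μ)`-net,
transitive on the points, such that for every prime `p` dividing `μ`: `G` is nilpotent, or `p`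
does not divide the orders of the point stabilisers, or the Sylow `p`-subgroups of `G` are cyclic.
Then every prime divisor of `μ` divides `s`, and if `s` is a prime power then `μ = s ^ (d - 2)`
for some `d ≥ 2`. -/
theorem result {P : Type*} [Fintype P] [DecidableEq P] {s r μ : ℕ} (hs : 2 ≤ s) (hμ : 1 ≤ μ)
    (cls : Fin r → Finset (Finset P)) (h : IsCompleteNet s r μ cls)
    (G : Subgroup (Equiv.Perm P)) (haut : ∀ g ∈ G, IsAut cls g)
    (htr : ∀ x y : P, ∃ g ∈ G, g x = y)
    (hG : ∀ p : ℕ, p.Prime → p ∣ μ → Group.IsNilpotent G ∨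
      (∀ x : P, ¬ p ∣ Nat.card (MulAction.stabilizer G x)) ∨ ∀ S : Sylow p G, IsCyclic S) :
    (∀ p : ℕ, p.Prime → p ∣ μ → p ∣ s) ∧ (IsPrimePow s → ∃ d, 2 ≤ d ∧ μ = s ^ (d - 2)) := by
  have hdvd : ∀ p : ℕ, p.Prime → p ∣ μ → p ∣ s := fun p hp hpμ =>
    dvd_of_transitive h hs hμ G haut htr hp hpμ (hG p hp hpμ)
  exact ⟨hdvd, fun hpp => classical_of_dvd h hs hμ hdvd hpp⟩

end Pool.Agent.Results.MP_67e184_co.PointRegular
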